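import Pool.Agent.X170.Core.Calc

/-!
# A relatively compact maximal component of the core of a domain in `ℂ²`
-/

set_option autoImplicit false

open Set Topology Filter Complex

namespace Pool.Agent.Results.MP_425ff5_an.CompactComponent

open Pool.Agent.X170.Core

/-- `l` belongs to the family `L` of the subsets of the core of `Ω` on which every smooth
plurisubharmonic function on `Ω` that is bounded from above is constant. -/
def InL (Ω l : Set (ℂ × ℂ)) : Prop :=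
  l ⊆ core Ω ∧ ∀ φ, IsBddPsh Ω φ → ∀ p ∈ l, ∀ q ∈ l, φ p = φ q

/-- `l` is a maximal component of the core of `Ω`: a maximal element of `L`. -/
def IsMaximalComponent (Ω l : Set (ℂ × ℂ)) : Prop :=
  InL Ω l ∧ ∀ l', InL Ω l' → l ⊆ l' → l' = l

/-- **Negative answer to Q2.** In the Stein manifold `ℂ²` there is a domain `Ω` whose core is all of
`Ω` and has the disc `{(z, 0) : |z| < 1}` as a maximal component; the closure of this maximal component
in `ℂ²` is compact. -/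
theorem result : ∃ Ω l : Set (ℂ × ℂ), IsOpen Ω ∧ IsConnected Ω ∧ core Ω = Ω ∧
    l = {p | ‖p.1‖ < 1 ∧ p.2 = 0} ∧ IsMaximalComponent Ω l ∧ l.Nonempty ∧ IsCompact (closure l) := by
  set Ω : Set (ℂ × ℂ) := {p | ‖p.2‖ < 1 ∧ ¬ (p.2 = 0 ∧ 1 ≤ ‖p.1‖)} with hΩ
  set l : Set (ℂ × ℂ) := {p | ‖p.1‖ < 1 ∧ p.2 = 0} with hl
  have hΩo : IsOpen Ω := by
    have h1 : IsClosed {p : ℂ × ℂ | p.2 = 0 ∧ 1 ≤ ‖p.1‖} :=
      (isClosed_eq continuous_snd continuous_const).inter
        (isClosed_le continuous_const continuous_fst.norm)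
    exact (isOpen_lt continuous_snd.norm continuous_const).inter h1.isOpen_compl
  have ht : ∀ (t : ℝ) (z : ℂ), 0 ≤ t → t ≤ 1 → ‖(t : ℂ) * z‖ ≤ ‖z‖ := by
    intro t z h0 h1
    rw [norm_mul, Complex.norm_real, Real.norm_of_nonneg h0]
    exact mul_le_of_le_one_left (norm_nonneg _) h1
  have hΩc : IsConnected Ω := by
    refine isConnected_of ⟨by simp, by simp⟩ (fun p hp t h0 h1 => ⟨hp.1, ?_⟩)
      (fun p hp t h0 h1 => ⟨lt_of_le_of_lt (ht t p.2 h0 h1) hp.1, ?_⟩)
    · rintro ⟨h2, h3⟩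
      exact hp.2 ⟨h2, h3.trans (ht t p.1 h0 h1)⟩
    · rintro ⟨-, h3⟩
      simp at h3
      linarith
  have hline : ∀ c : ℂ, ‖c‖ < 1 → c ≠ 0 → ∀ z : ℂ, (z, c) ∈ Ω := fun c h1 h2 z =>
    ⟨h1, fun h => h2 h.1⟩
  -- bounded psh functions are constant on the lines `w = c`
  have hconst : ∀ φ, IsBddPsh Ω φ → ∀ c : ℂ, ‖c‖ < 1 → c ≠ 0 → ∀ z z' : ℂ, φ (z, c) = φ (z', c) := by
    intro φ hφ c h1 h2
    have key : ∀ z z' : ℂ, φ (z, c) ≤ φ (z', c) := by
      intro z z'
      refine basic hΩo hφ (r := ‖z - z'‖) (fun y _ => hline c h1 h2 y) (fun R δ hδ => ?_) le_rfl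
      exact ⟨c, by simpa using hδ, fun y _ => hline c h1 h2 y⟩
    exact fun z z' => le_antisymm (key z z') (key z' z)
  have hlevi : ∀ φ, IsBddPsh Ω φ → ∀ p ∈ Ω, levi φ p (1, 0) ≤ 0 := by
    intro φ hφ p hp
    have hpe : p = (p.1, p.2) := rfl
    rw [hpe]
    refine basic_levi hΩo hφ hp fun R δ hδ => ?_
    by_cases h : p.2 = 0
    · set c : ℝ := min (δ / 2) (1 / 2) with hc
      have hc0 : 0 < c := lt_min (by linarith) (by norm_num)
      have hcδ : c < δ := lt_of_le_of_lt (min_le_left _ _) (by linarith)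
      have hc1 : c < 1 := lt_of_le_of_lt (min_le_right _ _) (by norm_num)
      have hn : ‖(c : ℂ)‖ = c := by rw [Complex.norm_real, Real.norm_of_nonneg hc0.le]
      refine ⟨(c : ℂ), ?_, fun z _ => hline _ (by rw [hn]; exact hc1)
        (fun h => hc0.ne' (Complex.ofReal_eq_zero.1 h)) z⟩
      rw [h, sub_zero, hn]
      exact hcδ
    · exact ⟨p.2, by simpa using hδ, fun z _ => hline p.2 hp.1 h z⟩
  have hcore : core Ω = Ω := by
    refine Subset.antisymm (fun p hp => hp.1) fun p hp => ⟨hp, ?_⟩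
    rintro ⟨φ, hφ, hpos⟩
    exact absurd (hpos (1, 0) (fun h => one_ne_zero (congrArg Prod.fst h)))
      (not_lt.2 (hlevi φ hφ p hp))
  have hlΩ : l ⊆ Ω := by
    rintro p ⟨h1, h2⟩
    exact ⟨by rw [h2]; simp, fun h => absurd h.2 (not_le.2 h1)⟩
  refine ⟨Ω, l, hΩo, hΩc, hcore, rfl, ⟨⟨by rw [hcore]; exact hlΩ, ?_⟩, ?_⟩, ?_, ?_⟩
  · intro φ hφ p hp q hq
    have hcont : ∀ p ∈ l, Tendsto (fun c : ℂ => φ (p.1, c)) (𝓝[≠] 0) (𝓝 (φ p)) := by
      intro p hp
      have h1 : ContinuousAt φ (p.1, 0) := by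
        have h2 : p = (p.1, 0) := Prod.ext rfl hp.2
        rw [← h2]
        exact (hφ.smooth p (hlΩ hp)).continuousWithinAt.continuousAt (hΩo.mem_nhds (hlΩ hp))
      have h2 : Tendsto (fun c : ℂ => ((p.1, c) : ℂ × ℂ)) (𝓝[≠] 0) (𝓝 (p.1, 0)) := by
        have : Continuous fun c : ℂ => ((p.1, c) : ℂ × ℂ) := by fun_prop
        exact (this.tendsto 0).mono_left nhdsWithin_le_nhds
      have h3 := h1.tendsto.comp h2
      have h4 : φ p = φ (p.1, 0) := by
        congr 1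
        exact Prod.ext rfl hp.2
      rw [h4]
      exact h3
    refine tendsto_nhds_unique (hcont p hp) ((hcont q hq).congr' ?_)
    have h1 : ∀ᶠ c : ℂ in 𝓝[≠] 0, ‖c‖ < 1 := by
      have : ∀ᶠ c : ℂ in 𝓝 0, ‖c‖ < 1 := by
        filter_upwards [Metric.ball_mem_nhds (0 : ℂ) one_pos] with c hc
        rwa [mem_ball_zero_iff] at hc
      exact this.filter_mono nhdsWithin_le_nhds
    filter_upwards [h1, self_mem_nhdsWithin] with c hc hc0
    exact hconst φ hφ c hc hc0 _ _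
  · rintro l' ⟨h1, h2⟩ h3
    refine Subset.antisymm (fun p hp => ?_) h3
    have hp' : p ∈ Ω := (h1 hp).1
    have h0 : ((0 : ℂ), (0 : ℂ)) ∈ l := ⟨by simp, rfl⟩
    have hψ : IsBddPsh Ω (fun p : ℂ × ℂ => ‖p.2‖ ^ 2) := by
      refine ⟨(contDiff_sq.comp contDiff_snd).contDiffOn, fun z _ ξ => ?_, ⟨1, ?_⟩⟩
      · rw [levi_snd]; positivity
      · rintro _ ⟨z, hz, rfl⟩
        have h4 := hz.1
        have h5 := norm_nonneg z.2
        show ‖z.2‖ ^ 2 ≤ 1
        nlinarith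
    have h4 := h2 _ hψ p hp _ (h3 h0)
    simp only [norm_zero] at h4
    have h5 : p.2 = 0 := by
      rw [← norm_eq_zero]
      nlinarith [norm_nonneg p.2]
    exact ⟨by by_contra hcon; exact hp'.2 ⟨h5, not_lt.1 hcon⟩, h5⟩
  · exact ⟨(0, 0), by simp, rfl⟩
  · refine Metric.isCompact_of_isClosed_isBounded isClosed_closure (Bornology.IsBounded.closure ?_)
    refine Metric.isBounded_closedBall.subset (t := Metric.closedBall (0 : ℂ × ℂ) 1) fun p hp => ?_
    rw [mem_closedBall_zero_iff, Prod.norm_def]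
    refine max_le hp.1.le ?_
    rw [hp.2, norm_zero]
    exact zero_le_one

end Pool.Agent.Results.MP_425ff5_an.CompactComponent
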